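import Mathlib
set_option autoImplicit false

/-!
Fixed points of uniform maps without abelian cubes: a congruence criterion (Dekking).
-/

namespace Pool.Agent.J4H54.RD

open Finset

variable {k : ℕ}

/-- The number of the letters `c` among the first `n` letters of `u`. -/
def cnt (u : ℕ → Fin k) (c : Fin k) (n : ℕ) : ℤ := ∑ i ∈ range n, if u i = c then 1 else 0

/-- The number of the letters `c` among the first `j` letters of the image of `a`. -/
def pv (f : Fin k → ℕ → Fin k) (c a : Fin k) (j : ℕ) : ℤ :=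
  ∑ i ∈ range j, if f a i = c then 1 else 0

/-- The sum of the values `h` of the first `j` letters of the image of `a`. -/
def hv (h : Fin k → ℤ) (f : Fin k → ℕ → Fin k) (a : Fin k) (j : ℕ) : ℤ :=
  ∑ i ∈ range j, h (f a i)

theorem hv_eq (h : Fin k → ℤ) (f : Fin k → ℕ → Fin k) (a : Fin k) (j : ℕ) :
    ∑ c, h c * pv f c a j = hv h f a j := by
  unfold pv hv
  simp only [Finset.mul_sum]
  rw [Finset.sum_comm]
  refine Finset.sum_congr rfl fun i _ => ?_
  simp

theorem cnt_add (u : ℕ → Fin k) (f : Fin k → ℕ → Fin k) (L : ℕ)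
    (hu : ∀ q j, j < L → u (L * q + j) = f (u q) j) (c : Fin k) (q j : ℕ) (hj : j ≤ L) :
    cnt u c (L * q + j) = cnt u c (L * q) + pv f c (u q) j := by
  unfold cnt pv
  rw [Finset.sum_range_add]
  congr 1
  refine Finset.sum_congr rfl fun i hi => ?_
  rw [hu q i (lt_of_lt_of_le (Finset.mem_range.1 hi) hj)]

theorem cnt_mul (u : ℕ → Fin k) (f : Fin k → ℕ → Fin k) (L : ℕ)
    (hu : ∀ q j, j < L → u (L * q + j) = f (u q) j) (c : Fin k) (q : ℕ) :
    cnt u c (L * q) = ∑ a, cnt u a q * pv f c a L := by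
  induction q with
  | zero => simp [cnt]
  | succ q ih =>
    rw [Nat.mul_succ, cnt_add u f L hu c q L le_rfl, ih]
    have e : ∀ a, cnt u a (q + 1) = cnt u a q + if u q = a then 1 else 0 := by
      intro a
      unfold cnt
      rw [Finset.sum_range_succ]
    simp only [e, add_mul, Finset.sum_add_distrib, ite_mul, one_mul, zero_mul,
      Finset.sum_ite_eq, Finset.mem_univ, if_true]

theorem cnt_total (u : ℕ → Fin k) (n : ℕ) : ∑ c, cnt u c n = n := by
  unfold cnt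
  rw [Finset.sum_comm]
  simp

/-- Dekking's criterion. -/
theorem no_cube (u : ℕ → Fin k) (f : Fin k → ℕ → Fin k) (L : ℕ) (hL : 2 ≤ L)
    (hu : ∀ q j, j < L → u (L * q + j) = f (u q) j) (h : Fin k → ℤ) (N : ℤ)
    (hN : ∀ a, N ∣ hv h f a L)
    (hAP : ∀ a₀ a₁ a₂ a₃ : Fin k, ∀ j₀ j₁ j₂ j₃ : ℕ, j₀ < L → j₁ < L → j₂ < L → j₃ < L →
      N ∣ hv h f a₂ j₂ - 2 * hv h f a₁ j₁ + hv h f a₀ j₀ →
      N ∣ hv h f a₃ j₃ - 2 * hv h f a₂ j₂ + hv h f a₁ j₁ →
      ∀ c, pv f c a₂ j₂ - 2 * pv f c a₁ j₁ + pv f c a₀ j₀ = 0 ∧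
        pv f c a₃ j₃ - 2 * pv f c a₂ j₂ + pv f c a₁ j₁ = 0)
    (hIN : ∀ (a : Fin k) (j n : ℕ), 1 ≤ n → j + 3 * n < L →
      ¬ ∀ c, pv f c a (j + 2 * n) - 2 * pv f c a (j + n) + pv f c a j = 0 ∧
        pv f c a (j + 3 * n) - 2 * pv f c a (j + 2 * n) + pv f c a (j + n) = 0)
    (hINJ : ∀ x : Fin k → ℤ, (∀ c, ∑ a, x a * pv f c a L = 0) → ∀ a, x a = 0) :
    ∀ n i : ℕ, 1 ≤ n →
      ¬ ∀ c, cnt u c (i + 2 * n) - 2 * cnt u c (i + n) + cnt u c i = 0 ∧
        cnt u c (i + 3 * n) - 2 * cnt u c (i + 2 * n) + cnt u c (i + n) = 0 := by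
  intro n
  induction n using Nat.strong_induction_on with
  | _ n ih =>
  intro i hn hc
  have hL0 : 0 < L := by omega
  have key : ∀ (c : Fin k) (p : ℕ), cnt u c p =
      ∑ a, cnt u a (p / L) * pv f c a L + pv f c (u (p / L)) (p % L) := by
    intro c p
    conv_lhs => rw [← Nat.div_add_mod p L]
    rw [cnt_add u f L hu c _ _ (Nat.mod_lt p hL0).le, cnt_mul u f L hu]
  have hkey : ∀ p : ℕ, ∃ z : ℤ, ∑ c, h c * cnt u c p = N * z + hv h f (u (p / L)) (p % L) := by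
    intro p
    choose y hy using hN
    refine ⟨∑ a, cnt u a (p / L) * y a, ?_⟩
    have e1 : ∑ c, h c * cnt u c p = ∑ c, h c * ∑ a, cnt u a (p / L) * pv f c a L +
        ∑ c, h c * pv f c (u (p / L)) (p % L) := by
      rw [← Finset.sum_add_distrib]
      refine Finset.sum_congr rfl fun c _ => ?_
      rw [key c p]
      ring
    rw [e1, hv_eq]
    congr 1
    simp only [Finset.mul_sum]
    rw [Finset.sum_comm]
    refine Finset.sum_congr rfl fun a _ => ?_
    have e2 : ∑ c, h c * (cnt u a (p / L) * pv f c a L) =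
        cnt u a (p / L) * ∑ c, h c * pv f c a L := by
      rw [Finset.mul_sum]
      refine Finset.sum_congr rfl fun c _ => ?_
      ring
    rw [e2, hv_eq, hy a]
    ring
  have two : ∀ p₀ p₁ p₂ : ℕ, (∀ c, cnt u c p₂ - 2 * cnt u c p₁ + cnt u c p₀ = 0) →
      N ∣ hv h f (u (p₂ / L)) (p₂ % L) - 2 * hv h f (u (p₁ / L)) (p₁ % L) +
        hv h f (u (p₀ / L)) (p₀ % L) := by
    intro p₀ p₁ p₂ hh
    obtain ⟨z₀, h₀⟩ := hkey p₀
    obtain ⟨z₁, h₁⟩ := hkey p₁
    obtain ⟨z₂, h₂⟩ := hkey p₂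
    have e : ∑ c, h c * cnt u c p₂ - 2 * ∑ c, h c * cnt u c p₁ + ∑ c, h c * cnt u c p₀ = 0 := by
      rw [Finset.mul_sum, ← Finset.sum_sub_distrib, ← Finset.sum_add_distrib]
      refine Finset.sum_eq_zero fun c _ => ?_
      have := hh c
      linear_combination h c * this
    refine ⟨-(z₂ - 2 * z₁ + z₀), ?_⟩
    rw [h₀, h₁, h₂] at e
    linear_combination e
  have hap := hAP _ _ _ _ _ _ _ _ (Nat.mod_lt i hL0) (Nat.mod_lt (i + n) hL0)
    (Nat.mod_lt (i + 2 * n) hL0) (Nat.mod_lt (i + 3 * n) hL0)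
    (two i (i + n) (i + 2 * n) fun c => (hc c).1)
    (two (i + n) (i + 2 * n) (i + 3 * n) fun c => (hc c).2)
  have low : ∀ p₀ p₁ p₂ : ℕ, (∀ c, cnt u c p₂ - 2 * cnt u c p₁ + cnt u c p₀ = 0) →
      (∀ c, pv f c (u (p₂ / L)) (p₂ % L) - 2 * pv f c (u (p₁ / L)) (p₁ % L) +
        pv f c (u (p₀ / L)) (p₀ % L) = 0) →
      ∀ a, cnt u a (p₂ / L) - 2 * cnt u a (p₁ / L) + cnt u a (p₀ / L) = 0 := by
    intro p₀ p₁ p₂ hh hp
    refine hINJ (fun a => cnt u a (p₂ / L) - 2 * cnt u a (p₁ / L) + cnt u a (p₀ / L)) fun c => ?_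
    have h1 := hh c
    rw [key c p₀, key c p₁, key c p₂] at h1
    have h2 := hp c
    have e : ∑ a, (cnt u a (p₂ / L) - 2 * cnt u a (p₁ / L) + cnt u a (p₀ / L)) * pv f c a L =
        ∑ a, cnt u a (p₂ / L) * pv f c a L - 2 * ∑ a, cnt u a (p₁ / L) * pv f c a L +
          ∑ a, cnt u a (p₀ / L) * pv f c a L := by
      rw [Finset.mul_sum, ← Finset.sum_sub_distrib, ← Finset.sum_add_distrib]
      refine Finset.sum_congr rfl fun a _ => ?_
      ring
    rw [e]
    linarith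
  have l1 := low i (i + n) (i + 2 * n) (fun c => (hc c).1) fun c => (hap c).1
  have l2 := low (i + n) (i + 2 * n) (i + 3 * n) (fun c => (hc c).2) fun c => (hap c).2
  have tot : ∀ p₀ p₁ p₂ : ℕ,
      (∀ a, cnt u a p₂ - 2 * cnt u a p₁ + cnt u a p₀ = 0) → (p₂ : ℤ) - 2 * p₁ + p₀ = 0 := by
    intro p₀ p₁ p₂ hh
    rw [← cnt_total u p₀, ← cnt_total u p₁, ← cnt_total u p₂, Finset.mul_sum,
      ← Finset.sum_sub_distrib, ← Finset.sum_add_distrib]
    exact Finset.sum_eq_zero fun c _ => hh c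
  have t1 := tot _ _ _ l1
  have t2 := tot _ _ _ l2
  set q₀ := i / L with hq₀
  set q₁ := (i + n) / L with hq₁
  set q₂ := (i + 2 * n) / L with hq₂
  set q₃ := (i + 3 * n) / L with hq₃
  have h01 : q₀ ≤ q₁ := Nat.div_le_div_right (by omega)
  obtain ⟨n', hn'⟩ := Nat.exists_eq_add_of_le h01
  have e2 : q₂ = q₀ + 2 * n' := by omega
  have e3 : q₃ = q₀ + 3 * n' := by omega
  have d0 := Nat.div_add_mod i L
  have d1 := Nat.div_add_mod (i + n) L
  have d2 := Nat.div_add_mod (i + 2 * n) L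
  have d3 := Nat.div_add_mod (i + 3 * n) L
  have r0 := Nat.mod_lt i hL0
  have r1 := Nat.mod_lt (i + n) hL0
  have r2 := Nat.mod_lt (i + 2 * n) hL0
  have r3 := Nat.mod_lt (i + 3 * n) hL0
  rw [← hq₀] at d0
  rw [← hq₁] at d1
  rw [← hq₂] at d2
  rw [← hq₃] at d3
  rcases Nat.eq_zero_or_pos n' with h0 | h0
  · subst h0
    have f1 : q₁ = q₀ := by omega
    have f2 : q₂ = q₀ := by omega
    have f3 : q₃ = q₀ := by omega
    rw [f1] at d1
    rw [f2] at d2
    rw [f3] at d3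
    have g1 : (i + n) % L = i % L + n := by omega
    have g2 : (i + 2 * n) % L = i % L + 2 * n := by omega
    have g3 : (i + 3 * n) % L = i % L + 3 * n := by omega
    refine hIN (u q₀) (i % L) n hn (by omega) fun c => ?_
    have := hap c
    rw [f1, f2, f3, g1, g2, g3] at this
    exact this
  · have hlt : n' < n := by
      by_contra hge
      push Not at hge
      have h1 : L * q₃ = L * q₀ + 3 * (L * n') := by rw [e3]; ring
      have h2 : L * n ≤ L * n' := Nat.mul_le_mul_left L hge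
      have h3 : 2 * n ≤ L * n := Nat.mul_le_mul_right n hL
      have h4 : L ≤ L * n := Nat.le_mul_of_pos_right L hn
      omega
    refine ih n' hlt q₀ h0 fun c => ?_
    have m1 := l1 c
    have m2 := l2 c
    rw [hn', e2] at m1
    rw [hn', e2, e3] at m2
    exact ⟨m1, m2⟩

end Pool.Agent.J4H54.RD
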