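import Mathlib
set_option autoImplicit false

/-!
Fixed points of uniform maps without abelian cubes: a congruence criterion (Dekking), letters are
natural numbers below `K`.
-/

namespace Pool.Agent.J4H54.RD

open Finset

/-- The number of the letters `c` among the first `n` letters of `u`. -/
def cntN (u : ℕ → ℕ) (c : ℕ) (n : ℕ) : ℤ := ∑ i ∈ range n, if u i = c then 1 else 0

/-- The number of the letters `c` among the first `j` letters of the image of `a`. -/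
def pvN (f : ℕ → ℕ → ℕ) (c a : ℕ) (j : ℕ) : ℤ :=
  ∑ i ∈ range j, if f a i = c then 1 else 0

/-- The sum of the values `h` of the first `j` letters of the image of `a`. -/
def hvN (h : ℕ → ℤ) (f : ℕ → ℕ → ℕ) (a : ℕ) (j : ℕ) : ℤ :=
  ∑ i ∈ range j, h (f a i)

theorem hvN_eq (K : ℕ) (h : ℕ → ℤ) (f : ℕ → ℕ → ℕ) (a : ℕ) (j : ℕ) (hf : ∀ r < j, f a r < K) :
    ∑ c ∈ range K, h c * pvN f c a j = hvN h f a j := by
  unfold pvN hvN
  simp only [Finset.mul_sum]
  rw [Finset.sum_comm]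
  refine Finset.sum_congr rfl fun i hi => ?_
  have := hf i (Finset.mem_range.1 hi)
  simp only [mul_ite, mul_one, mul_zero, Finset.sum_ite_eq, Finset.mem_range, this, if_true]

theorem cntN_add (u : ℕ → ℕ) (f : ℕ → ℕ → ℕ) (L : ℕ)
    (hu : ∀ q j, j < L → u (L * q + j) = f (u q) j) (c : ℕ) (q j : ℕ) (hj : j ≤ L) :
    cntN u c (L * q + j) = cntN u c (L * q) + pvN f c (u q) j := by
  unfold cntN pvN
  rw [Finset.sum_range_add]
  congr 1
  refine Finset.sum_congr rfl fun i hi => ?_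
  rw [hu q i (lt_of_lt_of_le (Finset.mem_range.1 hi) hj)]

theorem cntN_mul (u : ℕ → ℕ) (f : ℕ → ℕ → ℕ) (K L : ℕ) (hK : ∀ n, u n < K)
    (hu : ∀ q j, j < L → u (L * q + j) = f (u q) j) (c : ℕ) (q : ℕ) :
    cntN u c (L * q) = ∑ a ∈ range K, cntN u a q * pvN f c a L := by
  induction q with
  | zero => simp [cntN]
  | succ q ih =>
    rw [Nat.mul_succ, cntN_add u f L hu c q L le_rfl, ih]
    have e : ∀ a, cntN u a (q + 1) = cntN u a q + if u q = a then 1 else 0 := by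
      intro a
      unfold cntN
      rw [Finset.sum_range_succ]
    simp only [e, add_mul, Finset.sum_add_distrib, ite_mul, one_mul, zero_mul,
      Finset.sum_ite_eq, Finset.mem_range, hK q, if_true]

theorem cntN_total (u : ℕ → ℕ) (K : ℕ) (hK : ∀ n, u n < K) (n : ℕ) :
    ∑ c ∈ range K, cntN u c n = n := by
  unfold cntN
  rw [Finset.sum_comm]
  simp [hK]

/-- Dekking's criterion. -/
theorem no_cube_aux (f : ℕ → ℕ → ℕ) (u : ℕ → ℕ) (K L : ℕ) (hL : 2 ≤ L)
    (hu : ∀ q j, j < L → u (L * q + j) = f (u q) j) (hK : ∀ n, u n < K)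
    (hf : ∀ a < K, ∀ r < L, f a r < K) (h : ℕ → ℤ) (N : ℤ)
    (hN : ∀ a < K, N ∣ hvN h f a L)
    (hAP : ∀ a₀ < K, ∀ a₁ < K, ∀ a₂ < K, ∀ a₃ < K, ∀ j₀ < L, ∀ j₁ < L, ∀ j₂ < L, ∀ j₃ < L,
      N ∣ hvN h f a₂ j₂ - 2 * hvN h f a₁ j₁ + hvN h f a₀ j₀ →
      N ∣ hvN h f a₃ j₃ - 2 * hvN h f a₂ j₂ + hvN h f a₁ j₁ →
      ∀ c < K, pvN f c a₂ j₂ - 2 * pvN f c a₁ j₁ + pvN f c a₀ j₀ = 0 ∧
        pvN f c a₃ j₃ - 2 * pvN f c a₂ j₂ + pvN f c a₁ j₁ = 0)
    (hIN : ∀ a < K, ∀ (j n : ℕ), 1 ≤ n → j + 3 * n < L →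
      ¬ ∀ c < K, pvN f c a (j + 2 * n) - 2 * pvN f c a (j + n) + pvN f c a j = 0 ∧
        pvN f c a (j + 3 * n) - 2 * pvN f c a (j + 2 * n) + pvN f c a (j + n) = 0)
    (hINJ : ∀ x : ℕ → ℤ, (∀ c < K, ∑ a ∈ range K, x a * pvN f c a L = 0) → ∀ a < K, x a = 0) :
    ∀ n i : ℕ, 1 ≤ n →
      ¬ ∀ c < K, cntN u c (i + 2 * n) - 2 * cntN u c (i + n) + cntN u c i = 0 ∧
        cntN u c (i + 3 * n) - 2 * cntN u c (i + 2 * n) + cntN u c (i + n) = 0 := by
  intro n
  induction n using Nat.strong_induction_on with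
  | _ n ih =>
  intro i hn hc
  have hL0 : 0 < L := by omega
  have key : ∀ (c : ℕ) (p : ℕ), cntN u c p =
      ∑ a ∈ range K, cntN u a (p / L) * pvN f c a L + pvN f c (u (p / L)) (p % L) := by
    intro c p
    conv_lhs => rw [← Nat.div_add_mod p L]
    rw [cntN_add u f L hu c _ _ (Nat.mod_lt p hL0).le, cntN_mul u f K L hK hu]
  have hkey : ∀ p : ℕ, ∃ z : ℤ, ∑ c ∈ range K, h c * cntN u c p = N * z + hvN h f (u (p / L)) (p % L) := by
    intro p
    have hN' : ∀ a, ∃ y : ℤ, a < K → hvN h f a L = N * y := by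
      intro a
      by_cases ha : a < K
      · obtain ⟨y, hy⟩ := hN a ha
        exact ⟨y, fun _ => hy⟩
      · exact ⟨0, fun h' => absurd h' ha⟩
    choose y hy using hN'
    refine ⟨∑ a ∈ range K, cntN u a (p / L) * y a, ?_⟩
    have e1 : ∑ c ∈ range K, h c * cntN u c p =
        ∑ c ∈ range K, h c * ∑ a ∈ range K, cntN u a (p / L) * pvN f c a L +
        ∑ c ∈ range K, h c * pvN f c (u (p / L)) (p % L) := by
      rw [← Finset.sum_add_distrib]
      refine Finset.sum_congr rfl fun c _ => ?_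
      rw [key c p]
      ring
    rw [e1, hvN_eq K h f _ _ fun r hr => hf _ (hK _) r (hr.trans (Nat.mod_lt p hL0))]
    congr 1
    simp only [Finset.mul_sum]
    rw [Finset.sum_comm]
    refine Finset.sum_congr rfl fun a ha => ?_
    have ha' := Finset.mem_range.1 ha
    have e2 : ∑ c ∈ range K, h c * (cntN u a (p / L) * pvN f c a L) =
        cntN u a (p / L) * ∑ c ∈ range K, h c * pvN f c a L := by
      rw [Finset.mul_sum]
      refine Finset.sum_congr rfl fun c _ => ?_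
      ring
    rw [e2, hvN_eq K h f _ _ fun r hr => hf a ha' r hr, hy a ha']
    ring
  have two : ∀ p₀ p₁ p₂ : ℕ, (∀ c < K, cntN u c p₂ - 2 * cntN u c p₁ + cntN u c p₀ = 0) →
      N ∣ hvN h f (u (p₂ / L)) (p₂ % L) - 2 * hvN h f (u (p₁ / L)) (p₁ % L) +
        hvN h f (u (p₀ / L)) (p₀ % L) := by
    intro p₀ p₁ p₂ hh
    obtain ⟨z₀, h₀⟩ := hkey p₀
    obtain ⟨z₁, h₁⟩ := hkey p₁
    obtain ⟨z₂, h₂⟩ := hkey p₂
    have e : ∑ c ∈ range K, h c * cntN u c p₂ - 2 * ∑ c ∈ range K, h c * cntN u c p₁ +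
        ∑ c ∈ range K, h c * cntN u c p₀ = 0 := by
      rw [Finset.mul_sum, ← Finset.sum_sub_distrib, ← Finset.sum_add_distrib]
      refine Finset.sum_eq_zero fun c hcK => ?_
      have := hh c (Finset.mem_range.1 hcK)
      linear_combination h c * this
    refine ⟨-(z₂ - 2 * z₁ + z₀), ?_⟩
    rw [h₀, h₁, h₂] at e
    linear_combination e
  have hap := hAP _ (hK (i / L)) _ (hK ((i + n) / L)) _ (hK ((i + 2 * n) / L)) _
    (hK ((i + 3 * n) / L)) _ (Nat.mod_lt i hL0) _ (Nat.mod_lt (i + n) hL0)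
    _ (Nat.mod_lt (i + 2 * n) hL0) _ (Nat.mod_lt (i + 3 * n) hL0)
    (two i (i + n) (i + 2 * n) fun c hcK => (hc c hcK).1)
    (two (i + n) (i + 2 * n) (i + 3 * n) fun c hcK => (hc c hcK).2)
  have low : ∀ p₀ p₁ p₂ : ℕ, (∀ c < K, cntN u c p₂ - 2 * cntN u c p₁ + cntN u c p₀ = 0) →
      (∀ c < K, pvN f c (u (p₂ / L)) (p₂ % L) - 2 * pvN f c (u (p₁ / L)) (p₁ % L) +
        pvN f c (u (p₀ / L)) (p₀ % L) = 0) →
      ∀ a < K, cntN u a (p₂ / L) - 2 * cntN u a (p₁ / L) + cntN u a (p₀ / L) = 0 := by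
    intro p₀ p₁ p₂ hh hp
    refine hINJ (fun a => cntN u a (p₂ / L) - 2 * cntN u a (p₁ / L) + cntN u a (p₀ / L))
      fun c hcK => ?_
    have h1 := hh c hcK
    rw [key c p₀, key c p₁, key c p₂] at h1
    have h2 := hp c hcK
    have e : ∑ a ∈ range K,
        (cntN u a (p₂ / L) - 2 * cntN u a (p₁ / L) + cntN u a (p₀ / L)) * pvN f c a L =
        ∑ a ∈ range K, cntN u a (p₂ / L) * pvN f c a L -
          2 * ∑ a ∈ range K, cntN u a (p₁ / L) * pvN f c a L +
          ∑ a ∈ range K, cntN u a (p₀ / L) * pvN f c a L := by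
      rw [Finset.mul_sum, ← Finset.sum_sub_distrib, ← Finset.sum_add_distrib]
      refine Finset.sum_congr rfl fun a _ => ?_
      ring
    rw [e]
    linarith
  have l1 := low i (i + n) (i + 2 * n) (fun c hcK => (hc c hcK).1) fun c hcK => (hap c hcK).1
  have l2 := low (i + n) (i + 2 * n) (i + 3 * n) (fun c hcK => (hc c hcK).2) fun c hcK => (hap c hcK).2
  have tot : ∀ p₀ p₁ p₂ : ℕ,
      (∀ a < K, cntN u a p₂ - 2 * cntN u a p₁ + cntN u a p₀ = 0) → (p₂ : ℤ) - 2 * p₁ + p₀ = 0 := by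
    intro p₀ p₁ p₂ hh
    rw [← cntN_total u K hK p₀, ← cntN_total u K hK p₁, ← cntN_total u K hK p₂, Finset.mul_sum,
      ← Finset.sum_sub_distrib, ← Finset.sum_add_distrib]
    exact Finset.sum_eq_zero fun c hcK => hh c (Finset.mem_range.1 hcK)
  have t1 := tot _ _ _ l1
  have t2 := tot _ _ _ l2
  set q₀ := i / L with hq₀
  set q₁ := (i + n) / L with hq₁
  set q₂ := (i + 2 * n) / L with hq₂
  set q₃ := (i + 3 * n) / L with hq₃
  have h01 : q₀ ≤ q₁ := Nat.div_le_div_right (by omega)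
  obtain ⟨n', hn'⟩ := Nat.exists_eq_add_of_le h01
  have e2 : q₂ = q₀ + 2 * n' := by omega
  have e3 : q₃ = q₀ + 3 * n' := by omega
  have d0 := Nat.div_add_mod i L
  have d1 := Nat.div_add_mod (i + n) L
  have d2 := Nat.div_add_mod (i + 2 * n) L
  have d3 := Nat.div_add_mod (i + 3 * n) L
  have r0 := Nat.mod_lt i hL0
  have r1 := Nat.mod_lt (i + n) hL0
  have r2 := Nat.mod_lt (i + 2 * n) hL0
  have r3 := Nat.mod_lt (i + 3 * n) hL0
  rw [← hq₀] at d0
  rw [← hq₁] at d1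
  rw [← hq₂] at d2
  rw [← hq₃] at d3
  rcases Nat.eq_zero_or_pos n' with h0 | h0
  · subst h0
    have f1 : q₁ = q₀ := by omega
    have f2 : q₂ = q₀ := by omega
    have f3 : q₃ = q₀ := by omega
    rw [f1] at d1
    rw [f2] at d2
    rw [f3] at d3
    have g1 : (i + n) % L = i % L + n := by omega
    have g2 : (i + 2 * n) % L = i % L + 2 * n := by omega
    have g3 : (i + 3 * n) % L = i % L + 3 * n := by omega
    refine hIN (u q₀) (hK _) (i % L) n hn (by omega) fun c hcK => ?_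
    have := hap c hcK
    rw [f1, f2, f3, g1, g2, g3] at this
    exact this
  · have hlt : n' < n := by
      by_contra hge
      push Not at hge
      have h1 : L * q₃ = L * q₀ + 3 * (L * n') := by rw [e3]; ring
      have h2 : L * n ≤ L * n' := Nat.mul_le_mul_left L hge
      have h3 : 2 * n ≤ L * n := Nat.mul_le_mul_right n hL
      have h4 : L ≤ L * n := Nat.le_mul_of_pos_right L hn
      omega
    refine ih n' hlt q₀ h0 fun c hcK => ?_
    have m1 := l1 c hcK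
    have m2 := l2 c hcK
    rw [hn', e2] at m1
    rw [hn', e2, e3] at m2
    exact ⟨m1, m2⟩

/-- Dekking's criterion, the conclusion in terms of the numbers of letters in the blocks. -/
theorem no_cube_nat (f : ℕ → ℕ → ℕ) (u : ℕ → ℕ) (K L : ℕ) (hL : 2 ≤ L)
    (hu : ∀ q j, j < L → u (L * q + j) = f (u q) j) (hK : ∀ n, u n < K)
    (hf : ∀ a < K, ∀ r < L, f a r < K) (h : ℕ → ℤ) (N : ℤ)
    (hN : ∀ a < K, N ∣ hvN h f a L)
    (hAP : ∀ a₀ < K, ∀ a₁ < K, ∀ a₂ < K, ∀ a₃ < K, ∀ j₀ < L, ∀ j₁ < L, ∀ j₂ < L, ∀ j₃ < L,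
      N ∣ hvN h f a₂ j₂ - 2 * hvN h f a₁ j₁ + hvN h f a₀ j₀ →
      N ∣ hvN h f a₃ j₃ - 2 * hvN h f a₂ j₂ + hvN h f a₁ j₁ →
      ∀ c < K, pvN f c a₂ j₂ - 2 * pvN f c a₁ j₁ + pvN f c a₀ j₀ = 0 ∧
        pvN f c a₃ j₃ - 2 * pvN f c a₂ j₂ + pvN f c a₁ j₁ = 0)
    (hIN : ∀ a < K, ∀ (j n : ℕ), 1 ≤ n → j + 3 * n < L →
      ¬ ∀ c < K, pvN f c a (j + 2 * n) - 2 * pvN f c a (j + n) + pvN f c a j = 0 ∧
        pvN f c a (j + 3 * n) - 2 * pvN f c a (j + 2 * n) + pvN f c a (j + n) = 0)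
    (hINJ : ∀ x : ℕ → ℤ, (∀ c < K, ∑ a ∈ range K, x a * pvN f c a L = 0) → ∀ a < K, x a = 0) :
    ∀ i l : ℕ, 1 ≤ l →
      ¬ ∀ a, ((Finset.range l).filter fun t => u (i + t) = a).card =
          ((Finset.range l).filter fun t => u (i + l + t) = a).card ∧
        ((Finset.range l).filter fun t => u (i + l + t) = a).card =
          ((Finset.range l).filter fun t => u (i + 2 * l + t) = a).card := by
  intro i l hl hc
  have blk : ∀ p a : ℕ, ((((Finset.range l).filter fun t => u (p + t) = a).card : ℕ) : ℤ) =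
      cntN u a (p + l) - cntN u a p := by
    intro p a
    unfold cntN
    rw [Finset.sum_range_add, Finset.card_filter]
    push_cast
    ring
  refine no_cube_aux f u K L hL hu hK hf h N hN hAP hIN hINJ l i hl fun a _ => ?_
  obtain ⟨h1, h2⟩ := hc a
  have e0 := blk i a
  have e1 := blk (i + l) a
  have e2 := blk (i + 2 * l) a
  rw [show i + l + l = i + 2 * l by ring] at e1
  rw [show i + 2 * l + l = i + 3 * l by ring] at e2
  have h1' : ((((Finset.range l).filter fun t => u (i + t) = a).card : ℕ) : ℤ) =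
    (((Finset.range l).filter fun t => u (i + l + t) = a).card : ℕ) := by exact_mod_cast h1
  have h2' : ((((Finset.range l).filter fun t => u (i + l + t) = a).card : ℕ) : ℤ) =
    (((Finset.range l).filter fun t => u (i + 2 * l + t) = a).card : ℕ) := by exact_mod_cast h2
  rw [e0, e1] at h1'
  rw [e1, e2] at h2'
  constructor <;> linarith

end Pool.Agent.J4H54.RD
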